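import Pool.Agent.NH4.BK.Main
import Pool.Agent.NH4.PF.Main

/-!
# The Bloch-Kato Selmer groups of the twists of `X_0(14)` over multiquadratic fields
-/

set_option autoImplicit false

namespace Pool.Agent.NH4.BX

open WeierstrassCurve NumberField

open Pool.Agent.TH841.NF (EF Gen sc_EF tw_Sh thS thS_ker Qb tw)
open Pool.Agent.W307.RT (Sh)
open Pool.Agent.NH4.BK (H1f h1f_zero)
open Pool.Agent.NH4.PF (Ind PO Gg adm_iff gg_iff)
open Pool.Agent.NH5.LK (NoSel)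
open Pool.Agent.NH1 (gX)
open Pool.Agent.Z702 (sh)
open Pool.Agent.Y700 (VR)

/-- the `2`-primary part of `Ш` over the multiquadratic field is killed by the degree -/
theorem sha_kill {F : Type} [Field F] [NumberField F] {s : ℕ} {d : Fin s → ℤ}
    (hF : Gen F d) (hd : ∀ i, d i ≠ 0) {A B : ℤ}
    (h : ∀ (T : Finset (Fin s)) (y : Pool.Agent.TH841.SH.D.Sha
      (Sh ((∏ i ∈ T, d i) ^ 2 * A) ((∏ i ∈ T, d i) ^ 3 * B))), y + y = 0 → y = 0)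
    (k : ℕ) (x : Pool.Agent.TH841.NF.D.Sha (EF A B F)) (hk : (2 ^ k : ℕ) • x = 0) :
    (2 ^ s : ℕ) • x = 0 := by
  obtain ⟨r, hx, hgen⟩ := hF
  have hdq : ∀ i, (d i : ℚ) ≠ 0 := fun i => by exact_mod_cast hd i
  have hxq : ∀ i, r i ^ 2 = algebraMap ℚ F (d i : ℚ) := fun i => by
    rw [hx i, map_intCast]
  have he : Nonempty (AlgebraicClosure F ≃+* Qb) := by
    have h1 : Algebra.IsAlgebraic ℚ (AlgebraicClosure F) := Algebra.IsAlgebraic.trans ℚ F _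
    have h2 : IsAlgClosure ℚ (AlgebraicClosure F) := ⟨inferInstance, h1⟩
    exact ⟨(IsAlgClosure.equiv ℚ (AlgebraicClosure F) (AlgebraicClosure ℚ)).toRingEquiv⟩
  obtain ⟨e⟩ := he
  refine thS_ker (sc_EF A B F) rfl rfl e hxq hdq hgen x fun T => ?_
  have h1 : ∀ y : Pool.Agent.TH841.SH.D.Sha (tw (∏ i ∈ T, (d i : ℚ)) (Sh A B)),
      y + y = 0 → y = 0 := by
    rw [tw_Sh]
    exact h T
  have h2 : ∀ (k : ℕ) (y : Pool.Agent.TH841.SH.D.Sha (tw (∏ i ∈ T, (d i : ℚ)) (Sh A B))),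
      (2 ^ k : ℕ) • y = 0 → y = 0 := by
    intro k
    induction k with
    | zero =>
      intro y hy
      rw [pow_zero, one_smul] at hy
      exact hy
    | succ k ih =>
      intro y hy
      refine h1 y (ih _ ?_)
      rw [← two_nsmul, smul_smul, ← pow_succ]
      exact hy
  refine h2 k _ ?_
  rw [← map_nsmul, hk, map_zero]

theorem sh_delta_ne {D : ℤ} (hD : D ≠ 0) : (sh (5805 * D ^ 2) (-285714 * D ^ 3)).Δ ≠ 0 := by
  have hDQ : (D : ℚ) ≠ 0 := by exact_mod_cast hD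
  have h8 : (sh (5805 * D ^ 2) (-285714 * D ^ 3)).Δ =
      (-64 * 5805 ^ 3 - 432 * 285714 ^ 2) * (D : ℚ) ^ 6 := by
    simp only [sh, WeierstrassCurve.Δ, WeierstrassCurve.b₂, WeierstrassCurve.b₄,
      WeierstrassCurve.b₆, WeierstrassCurve.b₈]
    push_cast
    ring
  rw [h8]
  exact mul_ne_zero (by norm_num) (pow_ne_zero _ hDQ)

/-- the change of the equation -/
theorem vr_scale (D : ℤ) {k : ℤ} (hk : k ≠ 0) :
    VR (sh (5805 * (D * k ^ 2) ^ 2) (-285714 * (D * k ^ 2) ^ 3))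
      (sh (5805 * D ^ 2) (-285714 * D ^ 3)) (k : ℚ) 0 0 0 := by
  refine ⟨by exact_mod_cast hk, ?_, ?_, ?_, ?_, ?_⟩
  · show (k : ℚ) * 0 = 0 + 2 * 0
    ring
  · show (k : ℚ) ^ 2 * 0 = 0 - 0 * 0 + 3 * 0 - 0 ^ 2
    ring
  · show (k : ℚ) ^ 3 * 0 = 0 + 0 * 0 + 2 * 0
    ring
  · show (k : ℚ) ^ 4 * ((5805 * D ^ 2 : ℤ) : ℚ) = ((5805 * (D * k ^ 2) ^ 2 : ℤ) : ℚ) - 0 * 0 +
      2 * 0 * 0 - (0 + 0 * 0) * 0 + 3 * 0 ^ 2 - 2 * 0 * 0
    push_cast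
    ring
  · show (k : ℚ) ^ 6 * ((-285714 * D ^ 3 : ℤ) : ℚ) = ((-285714 * (D * k ^ 2) ^ 3 : ℤ) : ℚ) +
      0 * ((5805 * (D * k ^ 2) ^ 2 : ℤ) : ℚ) + 0 ^ 2 * 0 + 0 ^ 3 - 0 * 0 - 0 ^ 2 - 0 * 0 * 0
    push_cast
    ring

theorem nosel_scale {D k : ℤ} (hD : D ≠ 0) (hk : k ≠ 0) : NoSel (D * k ^ 2) ↔ NoSel D := by
  obtain ⟨a1, a2, -⟩ := Pool.Agent.Z702.f_TRN _ _ _ _ _ _ (vr_scale D hk) (sh_delta_ne hD)
  exact and_congr a1 a2

/-- **the Bloch-Kato Selmer group over the multiquadratic field is zero** -/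
theorem x14_h1f {n : ℕ} {M : ℤ} {d : Fin n → ℤ} (h : PO (Gg gX) d M) (hind : Ind d) (K : Type)
    [Field K] [NumberField K] (x : Fin n → K) (hx : ∀ i, x i ^ 2 = (d i : K))
    (hK : IntermediateField.adjoin ℚ (Set.range x) = ⊤) :
    ∀ y : H1f (EF (5805 * M ^ 2) (-285714 * M ^ 3) K), y = 0 := by
  have hd : ∀ i, d i ≠ 0 := fun i h0 => hind {i} (Finset.singleton_nonempty i) (by
    rw [Finset.prod_singleton, h0]
    exact ⟨0, by ring⟩)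
  have h1 := sha_kill (F := K) (A := 5805 * M ^ 2) (B := -285714 * M ^ 3) ⟨x, hx, hK⟩ hd
    (fun T => by
      obtain ⟨D, k, h1, h2, h3, h4⟩ := h T
      have hA := adm_iff.1 h1
      have h5 := ((nosel_scale hA.n0 h3).2 ((gg_iff hA).1 h2).2).2
      have e1 : (∏ i ∈ T, d i) ^ 2 * (5805 * M ^ 2) = 5805 * (D * k ^ 2) ^ 2 := by
        rw [← h4]; ring
      have e2 : (∏ i ∈ T, d i) ^ 3 * (-285714 * M ^ 3) = -285714 * (D * k ^ 2) ^ 3 := by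
        rw [← h4]; ring
      rw [e1, e2]
      exact h5)
  refine h1f_zero ?_ h1
  exact (PF.field_zero h hind K x hx hK).2

end Pool.Agent.NH4.BX
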